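import Pool.Agent.L5helper66.TD.Defs2
import Pool.Agent.L5helper3.NFExists

/-! # Existence of the tetrahedra of the elliptic family -/

set_option autoImplicit false

open scoped TensorProduct RealInnerProductSpace

namespace Pool.Agent.L5helper54.NH

open Pool.Agent.L5helper66.TD

theorem E_cm (t w : ℝ) (hw2 : w ^ 2 = 1 - t ^ 2 + t ^ 4 / 9) :
    cm 1 1 t (1 - t ^ 2 / 3) (w + t ^ 2 / 3) (w - t ^ 2 / 3) =
      2 / 27 * (t * (1 - t ^ 2) * (9 - t ^ 2)) ^ 2 := by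
  unfold cm
  linear_combination (2 - 2 * w ^ 2 + 14 / 3 * t ^ 2 + 4 / 3 * t ^ 2 * w ^ 2 - 64 / 9 * t ^ 4
    - 2 / 9 * t ^ 4 * w ^ 2 + 14 / 27 * t ^ 6 + 2 / 81 * t ^ 8) * hw2

/-- NH2 -/
theorem E_exists (t w : ℝ) (ht : 0 < t) (ht1 : t < 1) (hw : 0 < w)
    (hw2 : w ^ 2 = 1 - t ^ 2 + t ^ 4 / 9) :
    ∃ T : Fin 4 → E3, AffineIndependent ℝ T ∧
      HasEdges T 1 1 t (1 - t ^ 2 / 3) (w + t ^ 2 / 3) (w - t ^ 2 / 3) := by
  have ht2 : 0 < t ^ 2 := by positivity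
  have ht2' : t ^ 2 < 1 := by nlinarith
  have hwt : t ^ 2 / 3 < w := by
    apply lt_of_pow_lt_pow_left₀ 2 hw.le
    rw [hw2]
    nlinarith
  refine Pool.Agent.L5helper3.NF.exists_tetra _ _ _ _ _ _ one_pos one_pos ht (by linarith)
    (by linarith) (by linarith) ?_ ?_
  · nlinarith [mul_pos ht2 ht2, mul_pos (mul_pos ht2 ht2) ht2]
  · rw [E_cm t w hw2]
    have h1 : t * (1 - t ^ 2) * (9 - t ^ 2) ≠ 0 := by
      apply mul_ne_zero (mul_ne_zero ht.ne' _) _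
      · linarith
      · linarith
    positivity

end Pool.Agent.L5helper54.NH
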