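import Pool.Agent.L5helper69.SV.Defs4

/-! # Fundamental solutions of a two-sided recurrence -/

set_option autoImplicit false

namespace Pool.Agent.L5helper69.SV3

open Pool.Agent.L5helper69.SV2 Polynomial

/-- uniqueness -/
private lemma fund_uniq (Q : ℂ[X]) (hQ : Q.Monic) (h0 : Q.coeff 0 ≠ 0) (b : ℤ → ℂ) (hb : KillsZ Q b)
    (hi : ∀ i : ℕ, i < Q.natDegree → b i = 0) : ∀ n : ℤ, b n = 0 := by
  have hlead : Q.coeff Q.natDegree = 1 := hQ.coeff_natDegree
  have key : ∀ n : ℤ, ∀ i : ℕ, i < Q.natDegree → b (n + i) = 0 := by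
    intro n
    induction n using Int.induction_on with
    | zero => intro i hid; simpa using hi i hid
    | succ m ih =>
      intro i hid
      by_cases h : i + 1 < Q.natDegree
      · have := ih (i + 1) h
        rw [← this]
        congr 1
        push_cast
        ring
      · have hd : i + 1 = Q.natDegree := by omega
        have h1 := hb (m : ℤ)
        rw [Finset.sum_range_succ, hlead, one_mul] at h1
        have h2 : ∑ j ∈ Finset.range Q.natDegree, Q.coeff j * b ((m : ℤ) + j) = 0 := by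
          apply Finset.sum_eq_zero
          intro j hj
          rw [ih j (Finset.mem_range.1 hj), mul_zero]
        rw [h2, zero_add, ← hd] at h1
        rw [← h1]
        congr 1
        push_cast
        ring
    | pred m ih =>
      intro i hid
      cases i with
      | succ i =>
        have := ih i (by omega)
        rw [← this]
        congr 1
        push_cast
        ring
      | zero =>
        have h1 := hb (-(m : ℤ) - 1)
        rw [Finset.sum_range_succ'] at h1
        have h2 : ∑ j ∈ Finset.range Q.natDegree, Q.coeff (j + 1) * b (-(m : ℤ) - 1 + ((j + 1 : ℕ) : ℤ)) = 0 := by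
          apply Finset.sum_eq_zero
          intro j hj
          have e : -(m : ℤ) - 1 + ((j + 1 : ℕ) : ℤ) = -(m : ℤ) + (j : ℤ) := by push_cast; ring
          rw [e, ih j (Finset.mem_range.1 hj), mul_zero]
        rw [h2, zero_add] at h1
        exact (mul_eq_zero.1 h1).resolve_left h0
  intro n
  by_cases hd : 0 < Q.natDegree
  · simpa using key n 0 hd
  · have hd0 : Q.natDegree = 0 := by omega
    have h1 := hb n
    rw [hd0] at h1
    simp only [zero_add, Finset.range_one, Finset.sum_singleton, Nat.cast_zero, add_zero] at h1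
    exact (mul_eq_zero.1 h1).resolve_left h0

/-- the shift on the states -/
private noncomputable def stp (m : ℕ) (c : Fin (m + 1) → ℂ) (h0 : c 0 ≠ 0) : Equiv.Perm (Fin (m + 1) → ℂ) where
  toFun u := Fin.snoc (α := fun _ => ℂ) (Fin.tail u) (-∑ j, c j * u j)
  invFun w := Fin.cons (α := fun _ => ℂ)
    (-(w (Fin.last m) + ∑ j : Fin m, c j.succ * w j.castSucc) / c 0) (Fin.init w)
  left_inv u := by
    have h1 : Fin.init (Fin.snoc (α := fun _ => ℂ) (Fin.tail u) (-∑ j, c j * u j)) = Fin.tail u :=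
      Fin.init_snoc _ _
    simp only [Fin.snoc_last, Fin.snoc_castSucc, h1]
    have h2 : -(-∑ j, c j * u j + ∑ j : Fin m, c j.succ * Fin.tail u j) / c 0 = u 0 := by
      rw [Fin.sum_univ_succ]
      simp only [Fin.tail]
      field_simp
      ring
    rw [h2]
    exact Fin.cons_self_tail u
  right_inv w := by
    have h1 : Fin.tail (Fin.cons (α := fun _ => ℂ)
      (-(w (Fin.last m) + ∑ j : Fin m, c j.succ * w j.castSucc) / c 0) (Fin.init w)) = Fin.init w :=
      Fin.tail_cons _ _
    have h2 : -∑ j, c j * (Fin.cons (α := fun _ => ℂ)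
      (-(w (Fin.last m) + ∑ j : Fin m, c j.succ * w j.castSucc) / c 0) (Fin.init w)) j = w (Fin.last m) := by
      rw [Fin.sum_univ_succ]
      simp only [Fin.cons_zero, Fin.cons_succ, Fin.init]
      field_simp
      ring
    simp only [h1, h2]
    exact Fin.snoc_init_self w

/-- existence -/
private lemma fund_exists (Q : ℂ[X]) (hQ : Q.Monic) (h0 : Q.coeff 0 ≠ 0) (v : ℕ → ℂ) :
    ∃ a : ℤ → ℂ, KillsZ Q a ∧ ∀ i : ℕ, i < Q.natDegree → a i = v i := by
  have hlead : Q.coeff Q.natDegree = 1 := hQ.coeff_natDegree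
  rcases Nat.eq_zero_or_pos Q.natDegree with hd | hd
  · refine ⟨fun _ => 0, fun n => by simp, fun i hi => by omega⟩
  obtain ⟨m, hm⟩ : ∃ m, Q.natDegree = m + 1 := ⟨Q.natDegree - 1, by omega⟩
  set T := stp m (fun j => Q.coeff (j : ℕ)) h0 with hT
  set u : Fin (m + 1) → ℂ := fun j => v (j : ℕ) with hu
  have hstep : ∀ (w : Fin (m + 1) → ℂ) (k : Fin m), (T w) k.castSucc = w k.succ := by
    intro w k
    show Fin.snoc (α := fun _ => ℂ) (Fin.tail w) _ k.castSucc = _
    rw [Fin.snoc_castSucc]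
    rfl
  have hlast : ∀ (w : Fin (m + 1) → ℂ), (T w) (Fin.last m) = -∑ j : Fin (m + 1), Q.coeff (j : ℕ) * w j := by
    intro w
    show Fin.snoc (α := fun _ => ℂ) (Fin.tail w) _ (Fin.last m) = _
    rw [Fin.snoc_last]
  have hsucc : ∀ n : ℤ, (T ^ (n + 1)) u = T ((T ^ n) u) := by
    intro n
    rw [show n + 1 = 1 + n from add_comm n 1, zpow_one_add, Equiv.Perm.mul_apply]
  have hk : ∀ (k : ℕ) (hkm : k < m + 1) (n : ℤ), (T ^ n) u ⟨k, hkm⟩ = (T ^ (n + k)) u 0 := by
    intro k
    induction k with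
    | zero => intro hkm n; simp
    | succ k ih =>
      intro hkm n
      have h1 := hstep ((T ^ n) u) ⟨k, by omega⟩
      rw [← hsucc] at h1
      have h2 := ih (by omega) (n + 1)
      have e1 : (⟨k, by omega⟩ : Fin m).castSucc = (⟨k, by omega⟩ : Fin (m + 1)) := rfl
      have e2 : (⟨k, by omega⟩ : Fin m).succ = (⟨k + 1, hkm⟩ : Fin (m + 1)) := rfl
      rw [e1, e2, h2] at h1
      have e3 : n + 1 + (k : ℤ) = n + ((k + 1 : ℕ) : ℤ) := by push_cast; ring
      rw [← h1, e3]
  refine ⟨fun n => (T ^ n) u 0, ?_, ?_⟩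
  · intro n
    rw [Finset.sum_range_succ, hlead, one_mul, hm]
    have h1 : (T ^ (n + 1)) u (Fin.last m) = -∑ j : Fin (m + 1), Q.coeff (j : ℕ) * (T ^ n) u j := by
      rw [hsucc, hlast]
    have h2 := hk m (by omega) (n + 1)
    have h3 : (Fin.last m) = (⟨m, by omega⟩ : Fin (m + 1)) := rfl
    rw [h3, h2] at h1
    have e : n + 1 + (m : ℤ) = n + ((m + 1 : ℕ) : ℤ) := by push_cast; ring
    rw [e] at h1
    show ∑ i ∈ Finset.range (m + 1), Q.coeff i * (T ^ (n + (i : ℤ))) u 0 + (T ^ (n + ((m + 1 : ℕ) : ℤ))) u 0 = 0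
    rw [h1, Finset.sum_range]
    have h4 : ∀ i : Fin (m + 1), (T ^ (n + ((i : ℕ) : ℤ))) u 0 = (T ^ n) u i := fun i => (hk i i.2 n).symm
    simp only [h4]
    ring
  · intro i hi
    have h1 := hk i (by omega) 0
    simp only [zpow_zero, zero_add] at h1
    show (T ^ (i : ℤ)) u 0 = v i
    rw [← h1]
    rfl

/-- FUND -/
theorem fund : St_Fund := by
  intro Q hQ h0
  choose e he1 he2 using fun i : Fin Q.natDegree =>
    fund_exists Q hQ h0 (fun k => if k = (i : ℕ) then 1 else 0)
  refine ⟨e, he1, ?_⟩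
  intro a ha n
  have hz := fund_uniq Q hQ h0 (fun n => a n - ∑ i : Fin Q.natDegree, e i n * a ((i : ℕ) : ℤ)) ?_ ?_ n
  · exact sub_eq_zero.1 hz
  · intro n
    simp only [mul_sub, Finset.sum_sub_distrib]
    rw [ha n, zero_sub, neg_eq_zero]
    simp only [Finset.mul_sum]
    rw [Finset.sum_comm]
    apply Finset.sum_eq_zero
    intro i _
    have h1 := he1 i n
    have h2 : ∑ x ∈ Finset.range (Q.natDegree + 1), Q.coeff x * (e i (n + x) * a ((i : ℕ) : ℤ)) =
        (∑ x ∈ Finset.range (Q.natDegree + 1), Q.coeff x * e i (n + x)) * a ((i : ℕ) : ℤ) := by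
      rw [Finset.sum_mul]
      exact Finset.sum_congr rfl fun x _ => by ring
    rw [h2, h1, zero_mul]
  · intro k hk
    show a k - ∑ i : Fin Q.natDegree, e i k * a ((i : ℕ) : ℤ) = 0
    have h1 : ∀ i : Fin Q.natDegree, e i (k : ℤ) = if k = (i : ℕ) then 1 else 0 := fun i => he2 i k hk
    simp only [h1]
    rw [Finset.sum_eq_single (⟨k, hk⟩ : Fin Q.natDegree)]
    · simp
    · intro i _ hne
      have : k ≠ (i : ℕ) := fun e => hne (Fin.ext e.symm)
      simp [this]
    · intro h; exact absurd (Finset.mem_univ _) h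


end Pool.Agent.L5helper69.SV3
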